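import Pool.Agent.helper33.QX.SpecA

set_option autoImplicit false

/-!
# Project QX (MP_07c750), row HV1: continuity and smoothness of horocyclic averages
-/

open scoped MatrixGroups ContDiff Topology UpperHalfPlane
open UpperHalfPlane MeasureTheory Filter Set
open Pool.Agent.QU

namespace Pool.Agent.QX

theorem HV1_cont_vadd : Continuous (fun q : ℍ × ℝ => ((q.2 * q.1.im) +ᵥ q.1 : ℍ)) := by
  rw [UpperHalfPlane.isEmbedding_coe.continuous_iff]
  have : ((fun z : ℍ => (z : ℂ)) ∘ fun q : ℍ × ℝ => ((q.2 * q.1.im) +ᵥ q.1 : ℍ)) =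
      fun q : ℍ × ℝ => ((q.2 * q.1.im : ℝ) : ℂ) + (q.1 : ℂ) := by
    funext q
    simp [UpperHalfPlane.coe_vadd]
  rw [this]
  refine Continuous.add ?_ (UpperHalfPlane.continuous_coe.comp continuous_fst)
  exact Complex.continuous_ofReal.comp (continuous_snd.mul (UpperHalfPlane.continuous_im.comp continuous_fst))

theorem HV1_set (θ : ℝ → ℝ) (u : ℍ → ℝ) (z : ℍ) :
    hav θ u z = ∫ v in tsupport θ, θ v * u ((v * z.im) +ᵥ z) := by
  unfold hav
  symm
  apply setIntegral_eq_integral_of_forall_compl_eq_zero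
  intro v hv
  rw [image_eq_zero_of_notMem_tsupport hv, zero_mul]

theorem HV1_cont (θ : ℝ → ℝ) (u : ℍ → ℝ) (hθ : TK θ) (hu : Continuous u) : Continuous (hav θ u) := by
  have h : hav θ u = fun z => ∫ v in tsupport θ, θ v * u ((v * z.im) +ᵥ z) := funext (HV1_set θ u)
  rw [h]
  apply continuous_parametric_integral_of_continuous (f := fun (z : ℍ) (v : ℝ) => θ v * u ((v * z.im) +ᵥ z))
  · exact (hθ.smooth.continuous.comp continuous_snd).mul (hu.comp HV1_cont_vadd)
  · exact hθ.supp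

theorem HV1_supp (θ : ℝ → ℝ) (u : ℍ → ℝ) (hθ : TK θ) (hu : HasCompactSupport u) :
    HasCompactSupport (hav θ u) := by
  have hK : IsCompact ((fun q : ℍ × ℝ => ((q.2 * q.1.im) +ᵥ q.1 : ℍ)) '' (tsupport u ×ˢ ((fun v => -v) '' tsupport θ))) := by
    refine (IsCompact.prod hu ?_).image HV1_cont_vadd
    exact IsCompact.image hθ.supp continuous_neg
  refine HasCompactSupport.intro hK fun z hz => ?_
  unfold hav
  have : ∀ v : ℝ, θ v * u ((v * z.im) +ᵥ z) = 0 := by
    intro v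
    by_contra hne
    apply hz
    have h1 : v ∈ tsupport θ := subset_tsupport _ (left_ne_zero_of_mul hne)
    have h2 : ((v * z.im) +ᵥ z : ℍ) ∈ tsupport u := subset_tsupport _ (right_ne_zero_of_mul hne)
    refine ⟨((v * z.im) +ᵥ z, -v), ⟨h2, ⟨v, h1, rfl⟩⟩, ?_⟩
    show ((-v * ((v * z.im) +ᵥ z : ℍ).im) +ᵥ ((v * z.im) +ᵥ z : ℍ) : ℍ) = z
    rw [UpperHalfPlane.vadd_im, vadd_vadd]
    have : -v * z.im + v * z.im = 0 := by ring
    rw [this, zero_vadd]
  simp [this]

theorem HV1_onC (θ : ℝ → ℝ) (u : ℍ → ℝ) (w : ℂ) (hw : 0 < w.im) :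
    onC (hav θ u) w = ∫ v : ℝ, θ v * onC u (w + ((v * w.im : ℝ) : ℂ)) := by
  unfold onC hav
  refine integral_congr_ae (Filter.Eventually.of_forall fun v => ?_)
  show θ v * u ((v * (ofComplex w).im) +ᵥ ofComplex w) = θ v * u (ofComplex (w + ((v * w.im : ℝ) : ℂ)))
  have h1 : ((v * (ofComplex w).im) +ᵥ ofComplex w : ℍ) = ofComplex (w + ((v * w.im : ℝ) : ℂ)) := by
    have h2 : 0 < (w + ((v * w.im : ℝ) : ℂ)).im := by
      rw [Complex.add_im, Complex.ofReal_im, add_zero]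
      exact hw
    rw [ofComplex_apply_of_im_pos hw, ofComplex_apply_of_im_pos h2]
    apply UpperHalfPlane.ext
    rw [UpperHalfPlane.coe_vadd]
    show ((v * w.im : ℝ) : ℂ) + w = w + ((v * w.im : ℝ) : ℂ)
    ring
  rw [h1]

theorem HV1_smooth (θ : ℝ → ℝ) (u : ℍ → ℝ) (hθ : TK θ) (hu : CD ∞ u) : CD ∞ (hav θ u) := by
  set S : Set ℂ := {w : ℂ | 0 < w.im} with hS
  set g : ℂ → ℝ → ℝ := fun p x => θ (-x) * onC u (p + ((-x * p.im : ℝ) : ℂ)) with hg
  have hSo : IsOpen S := isOpen_lt continuous_const Complex.continuous_im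
  have hk : IsCompact ((fun v : ℝ => -v) '' tsupport θ) := IsCompact.image hθ.supp continuous_neg
  have hgs : ∀ p, ∀ x, p ∈ S → x ∉ ((fun v : ℝ => -v) '' tsupport θ) → g p x = 0 := by
    intro p x _ hx
    have : θ (-x) = 0 := by
      apply image_eq_zero_of_notMem_tsupport
      intro h
      exact hx ⟨-x, h, neg_neg x⟩
    rw [hg]
    simp only [this, zero_mul]
  have hf : LocallyIntegrable (fun _ : ℝ => (1 : ℝ)) volume := locallyIntegrable_const _
  have hgc : ContDiffOn ℝ ((⊤ : ℕ∞) : WithTop ℕ∞) (↿g) (S ×ˢ univ) := by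
    have e : (↿g) = fun q : ℂ × ℝ => θ (-q.2) * onC u (q.1 + Complex.ofRealCLM (-q.2 * Complex.imCLM q.1)) := rfl
    rw [e]
    refine ContDiffOn.mul ?_ ?_
    · exact (hθ.smooth.comp (contDiff_snd.neg)).contDiffOn
    · refine ContDiffOn.comp (t := S) (f := fun q : ℂ × ℝ => q.1 + Complex.ofRealCLM (-q.2 * Complex.imCLM q.1)) hu ?_ ?_
      · apply ContDiff.contDiffOn
        refine contDiff_fst.add (Complex.ofRealCLM.contDiff.comp ?_)
        exact (contDiff_snd.neg).mul (Complex.imCLM.contDiff.comp contDiff_fst)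
      · intro q hq
        show 0 < (q.1 + Complex.ofRealCLM (-q.2 * Complex.imCLM q.1)).im
        rw [Complex.add_im, Complex.ofRealCLM_apply, Complex.ofReal_im, add_zero]
        exact hq.1
  have h1 := contDiffOn_convolution_right_with_param (μ := volume) (ContinuousLinearMap.mul ℝ ℝ) hSo hk hgs hf hgc
  have h2 : ContDiffOn ℝ ((⊤ : ℕ∞) : WithTop ℕ∞)
      (fun p : ℂ => (MeasureTheory.convolution (fun _ : ℝ => (1 : ℝ)) (g p) (ContinuousLinearMap.mul ℝ ℝ) volume) 0) S := by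
    refine ContDiffOn.comp (t := S ×ˢ univ) (f := fun p : ℂ => (p, (0 : ℝ))) h1 ?_ ?_
    · exact (contDiff_id.prodMk contDiff_const).contDiffOn
    · intro p hp
      exact ⟨hp, mem_univ _⟩
  refine h2.congr fun p hp => ?_
  rw [HV1_onC θ u p hp]
  unfold MeasureTheory.convolution
  refine integral_congr_ae (Filter.Eventually.of_forall fun t => ?_)
  show θ t * onC u (p + ((t * p.im : ℝ) : ℂ)) = 1 * (θ (-(0 - t)) * onC u (p + ((-(0 - t) * p.im : ℝ) : ℂ)))
  rw [one_mul]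
  have : -(0 - t) = t := by ring
  rw [this]

theorem HV1 : HV1_stmt := fun θ u hθ =>
  ⟨fun hu hs => ⟨HV1_cont θ u hθ hu, HV1_supp θ u hθ hs⟩, fun hu => HV1_smooth θ u hθ hu⟩

end Pool.Agent.QX
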