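import Pool.Agent.helper37.QX.SpecG

set_option autoImplicit false

/-!
# Project QX (MP_07c750), row TTS: the majorant
-/


open Filter


namespace Pool.Agent.QX

theorem TTS_gm_sq : ∀ m : ℕ, gm m ^ 2 ≤ m.factorial ∧ gm (m + 1) ^ 2 ≤ (m + 1).factorial := by
  intro m
  induction m with
  | zero => simp [gm]
  | succ m ih =>
    refine ⟨ih.2, ?_⟩
    have e : gm (m + 1 + 1) = (m + 1) * gm m := rfl
    rw [e, mul_pow, Nat.factorial_succ (m + 1), Nat.factorial_succ m]
    calc (m + 1) ^ 2 * gm m ^ 2 ≤ (m + 1) ^ 2 * m.factorial := Nat.mul_le_mul_left _ ih.1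
      _ = (m + 1) * ((m + 1) * m.factorial) := by ring
      _ ≤ (m + 1 + 1) * ((m + 1) * m.factorial) := Nat.mul_le_mul_right _ (by omega)

theorem TTS_gm_le (m : ℕ) : (gm m : ℝ) ≤ Real.sqrt (m.factorial : ℝ) := by
  apply Real.le_sqrt_of_sq_le
  exact_mod_cast (TTS_gm_sq m).1

theorem TTS_sum (m : ℕ) (t : ℝ) (ht : 0 ≤ t) :
    Summable (fun j : ℕ => t ^ j / (j.factorial : ℝ) * (gm (m + j) : ℝ)) := by
  have hb : Summable (fun j : ℕ => t ^ j / (j.factorial : ℝ) * Real.sqrt ((m + j).factorial : ℝ)) := by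
    refine summable_of_ratio_norm_eventually_le (r := 1 / 2) (by norm_num) ?_
    obtain ⟨J, hJ⟩ := exists_nat_ge (4 * t ^ 2 * (m + 1))
    filter_upwards [eventually_ge_atTop J] with j hj
    have hjr : (J : ℝ) ≤ j := by exact_mod_cast hj
    have h0 : 0 ≤ t ^ j / (j.factorial : ℝ) * Real.sqrt ((m + j).factorial : ℝ) := by positivity
    have h1 : 0 ≤ t ^ (j + 1) / ((j + 1).factorial : ℝ) * Real.sqrt ((m + (j + 1)).factorial : ℝ) := by positivity
    rw [Real.norm_of_nonneg h0, Real.norm_of_nonneg h1]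
    have e1 : Real.sqrt ((m + (j + 1)).factorial : ℝ) =
        Real.sqrt ((m + j + 1 : ℕ) : ℝ) * Real.sqrt ((m + j).factorial : ℝ) := by
      rw [← Real.sqrt_mul (by positivity)]
      congr 1
      rw [← Nat.cast_mul, ← Nat.factorial_succ]
      rfl
    have e2 : t ^ (j + 1) / ((j + 1).factorial : ℝ) = t ^ j / (j.factorial : ℝ) * (t / (j + 1)) := by
      rw [Nat.factorial_succ]
      push_cast
      have : (j.factorial : ℝ) ≠ 0 := by positivity
      field_simp
      ring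
    rw [e1, e2]
    have h2 : t / (j + 1) * Real.sqrt ((m + j + 1 : ℕ) : ℝ) ≤ 1 / 2 := by
      have h3 : t * Real.sqrt ((m + j + 1 : ℕ) : ℝ) ≤ (j + 1) / 2 := by
        have h4 : t * Real.sqrt ((m + j + 1 : ℕ) : ℝ) = Real.sqrt (t ^ 2 * ((m + j + 1 : ℕ) : ℝ)) := by
          rw [Real.sqrt_mul (by positivity), Real.sqrt_sq ht]
        rw [h4]
        apply Real.sqrt_le_iff.2
        refine ⟨by positivity, ?_⟩
        push_cast
        have hm : (0 : ℝ) ≤ m := Nat.cast_nonneg m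
        have hj0 : (0 : ℝ) ≤ j := Nat.cast_nonneg j
        have h5 : (m : ℝ) + j + 1 ≤ (m + 1) * (j + 1) := by nlinarith
        have h6 : t ^ 2 * ((m : ℝ) + j + 1) ≤ t ^ 2 * ((m + 1) * (j + 1)) :=
          mul_le_mul_of_nonneg_left h5 (by positivity)
        have h7 : 4 * t ^ 2 * (m + 1) * (j + 1) ≤ (j + 1) * (j + 1) :=
          mul_le_mul_of_nonneg_right (by linarith) (by positivity)
        nlinarith
      have h8 : (0 : ℝ) < j + 1 := by positivity
      rw [div_mul_eq_mul_div, div_le_iff₀ h8]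
      linarith
    calc t ^ j / (j.factorial : ℝ) * (t / (j + 1)) *
          (Real.sqrt ((m + j + 1 : ℕ) : ℝ) * Real.sqrt ((m + j).factorial : ℝ))
        = (t / (j + 1) * Real.sqrt ((m + j + 1 : ℕ) : ℝ)) *
          (t ^ j / (j.factorial : ℝ) * Real.sqrt ((m + j).factorial : ℝ)) := by ring
      _ ≤ 1 / 2 * (t ^ j / (j.factorial : ℝ) * Real.sqrt ((m + j).factorial : ℝ)) :=
          mul_le_mul_of_nonneg_right h2 h0
  refine Summable.of_nonneg_of_le (fun j => by positivity) (fun j => ?_) hb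
  exact mul_le_mul_of_nonneg_left (TTS_gm_le _) (by positivity)

theorem TTS_anti (m : ℕ) (t c : ℝ) (p : ℕ) :
    ∑ x ∈ Finset.HasAntidiagonal.antidiagonal p, c ^ x.1 / (x.1.factorial : ℝ) *
      (t ^ x.2 / (x.2.factorial : ℝ) * (gm (m + x.1 + x.2) : ℝ)) =
    (t + c) ^ p / (p.factorial : ℝ) * (gm (m + p) : ℝ) := by
  rw [add_comm t c, (Commute.all c t).add_pow', Finset.sum_div, Finset.sum_mul]
  refine Finset.sum_congr rfl fun x hx => ?_
  rw [Finset.HasAntidiagonal.mem_antidiagonal] at hx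
  have h1 : m + x.1 + x.2 = m + p := by omega
  rw [h1]
  have h2 : ((p.choose x.1 : ℕ) : ℝ) * (x.1.factorial : ℝ) * (x.2.factorial : ℝ) = (p.factorial : ℝ) := by
    have h := Nat.choose_mul_factorial_mul_factorial (n := p) (k := x.1) (by omega)
    have h' : p - x.1 = x.2 := by omega
    rw [h'] at h
    exact_mod_cast h
  have h3 : (x.1.factorial : ℝ) ≠ 0 := by positivity
  have h4 : (x.2.factorial : ℝ) ≠ 0 := by positivity
  have h5 : (p.factorial : ℝ) ≠ 0 := by positivity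
  rw [nsmul_eq_mul]
  field_simp
  rw [← h2]
  ring

theorem TTS_double (m : ℕ) (t c : ℝ) (ht : 0 ≤ t) (hc : 0 ≤ c) :
    HasSum (fun j : ℕ => c ^ j / (j.factorial : ℝ) * TT (m + j) t) (TT m (t + c)) := by
  set f : ℕ × ℕ → ℝ := fun x => c ^ x.1 / (x.1.factorial : ℝ) *
      (t ^ x.2 / (x.2.factorial : ℝ) * (gm (m + x.1 + x.2) : ℝ)) with hf
  have hf0 : ∀ x, 0 ≤ f x := fun x => by rw [hf]; positivity
  have hfib : ∀ p : ℕ, HasSum (fun x : Finset.HasAntidiagonal.antidiagonal p =>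
      (f ∘ Finset.HasAntidiagonal.sigmaAntidiagonalEquivProd) ⟨p, x⟩) ((t + c) ^ p / (p.factorial : ℝ) * (gm (m + p) : ℝ)) := by
    intro p
    rw [← TTS_anti m t c p]
    exact Finset.hasSum (Finset.HasAntidiagonal.antidiagonal p) f
  have hs : Summable (f ∘ Finset.HasAntidiagonal.sigmaAntidiagonalEquivProd) := by
    refine (summable_sigma_of_nonneg (f := f ∘ Finset.HasAntidiagonal.sigmaAntidiagonalEquivProd)
      (fun x => hf0 _)).2 ⟨fun p => (hfib p).summable, ?_⟩
    have : (fun p : ℕ => ∑' x : Finset.HasAntidiagonal.antidiagonal p, (f ∘ Finset.HasAntidiagonal.sigmaAntidiagonalEquivProd) ⟨p, x⟩) =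
        fun p : ℕ => (t + c) ^ p / (p.factorial : ℝ) * (gm (m + p) : ℝ) := by
      funext p
      exact (hfib p).tsum_eq
    rw [this]
    exact TTS_sum m (t + c) (by positivity)
  have h1 : HasSum (fun p : ℕ => (t + c) ^ p / (p.factorial : ℝ) * (gm (m + p) : ℝ))
      (∑' x, (f ∘ Finset.HasAntidiagonal.sigmaAntidiagonalEquivProd) x) := hs.hasSum.sigma hfib
  have h2 : TT m (t + c) = ∑' x, (f ∘ Finset.HasAntidiagonal.sigmaAntidiagonalEquivProd) x := h1.tsum_eq
  have h3 : HasSum f (TT m (t + c)) := by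
    rw [h2]
    exact (Finset.HasAntidiagonal.sigmaAntidiagonalEquivProd.hasSum_iff).1 hs.hasSum
  refine h3.prod_fiberwise fun j => ?_
  exact (TTS_sum (m + j) t ht).hasSum.mul_left _

theorem TTS_zero (m : ℕ) : TT m 0 = gm m := by
  unfold TT
  rw [tsum_eq_single 0]
  · simp
  · intro j hj
    simp [hj]

theorem TTS_gm_odd : ∀ k : ℕ, gm (2 * k + 1) = 0 := by
  intro k
  induction k with
  | zero => rfl
  | succ k ih =>
    have e : 2 * (k + 1) + 1 = (2 * k + 1) + 2 := by ring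
    rw [e]
    show (2 * k + 1 + 1) * gm (2 * k + 1) = 0
    rw [ih, mul_zero]

theorem TTS_gm_even : ∀ k : ℕ, gm (2 * k) * (2 ^ k * k.factorial) = (2 * k).factorial := by
  intro k
  induction k with
  | zero => rfl
  | succ k ih =>
    have e : 2 * (k + 1) = 2 * k + 2 := by ring
    rw [e]
    show (2 * k + 1) * gm (2 * k) * (2 ^ (k + 1) * (k + 1).factorial) = (2 * k + 1 + 1).factorial
    rw [Nat.factorial_succ (2 * k + 1), Nat.factorial_succ (2 * k), ← ih, Nat.factorial_succ k, pow_succ]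
    ring

theorem TTS_exp (t : ℝ) : TT 0 t = Real.exp (t ^ 2 / 2) := by
  rw [Real.exp_eq_exp_ℝ, NormedSpace.exp_eq_tsum_div]
  unfold TT
  have hinj : Function.Injective (fun k : ℕ => 2 * k) := fun a b h => by
    simpa using h
  rw [← hinj.tsum_eq]
  · refine tsum_congr fun k => ?_
    rw [zero_add]
    have h1 : (gm (2 * k) : ℝ) * (2 ^ k * (k.factorial : ℝ)) = ((2 * k).factorial : ℝ) := by
      exact_mod_cast TTS_gm_even k
    have h2 : (k.factorial : ℝ) ≠ 0 := by positivity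
    have h3 : ((2 * k).factorial : ℝ) ≠ 0 := by positivity
    rw [div_pow, ← pow_mul]
    rw [div_mul_eq_mul_div, div_eq_iff h3, ← h1]
    field_simp
  · intro j hj
    rw [Function.mem_support] at hj
    rcases Nat.even_or_odd' j with ⟨k, hk | hk⟩
    · exact ⟨k, hk.symm⟩
    · exfalso
      apply hj
      rw [zero_add, hk, TTS_gm_odd k]
      simp

theorem TTS : TTS_stmt :=
  ⟨fun m t ht => TTS_sum m t ht, fun m t c ht hc => TTS_double m t c ht hc, TTS_zero, fun t _ => TTS_exp t⟩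

end Pool.Agent.QX
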