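import Pool.Agent.helper4.QX.SpecP
import Pool.Agent.helper56.RP.MKV

set_option autoImplicit false

/-!
# Project QX (MP_07c750), row PLY: a localised polynomial
-/

open Polynomial
open Pool.Agent.QU Pool.Agent.RP

namespace Pool.Agent.QX

theorem PLY_mkv (hM : MKV_stmt) (p : ℝ[X]) (m : ℕ) (H : ℝ) (hp : p.natDegree ≤ m)
    (hb : ∀ x : ℝ, |x| ≤ 1 → |p.eval x| ≤ H) (x : ℝ) (hx : |x| ≤ 1) :
    |p.derivative.eval x| ≤ 4 * (m : ℝ) ^ 2 * H := by
  rw [abs_le] at hx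
  rcases le_total 0 x with h | h
  · have h1 := hM p m 1 H hp one_pos (fun y h2 h3 => hb y (abs_le.2 ⟨by linarith, h3⟩)) x h hx.2
    rwa [div_one] at h1
  · have hdeg : (p.comp (-X)).natDegree ≤ m := by
      rw [natDegree_comp, natDegree_neg, natDegree_X, mul_one]
      exact hp
    have h1 := hM (p.comp (-X)) m 1 H hdeg one_pos (fun y h2 h3 => by
      rw [eval_comp, eval_neg, eval_X]
      exact hb (-y) (abs_le.2 ⟨by linarith, by linarith⟩)) (-x) (by linarith) (by linarith)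
    rw [derivative_comp] at h1
    simp only [derivative_neg, derivative_X, eval_mul, eval_neg, eval_one, eval_comp, eval_X, neg_neg, div_one] at h1
    rw [neg_mul, one_mul, abs_neg] at h1
    exact h1

theorem PLY_half (F a b th : ℝ) (m : ℕ) (hm : 1 ≤ m) (h0 : 0 ≤ F) (h1 : F ≤ 1) (ha : 0 ≤ a) (hb : 0 ≤ b) (hth : 0 ≤ th)
    (hF : F * a ^ 2 * (m : ℝ) ^ 2 ≤ 1) (hba : b ≤ a + th) :
    F * (2 * (a * b)) ≤ 2 * (1 / (m : ℝ) ^ 2 + th / m) := by
  have hm0 : (0 : ℝ) < m := by exact_mod_cast hm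
  have h2 : F * a ^ 2 ≤ 1 / (m : ℝ) ^ 2 := by
    rw [le_div_iff₀ (by positivity)]
    exact hF
  have h3 : F * a ≤ 1 / m := by
    rw [← pow_le_pow_iff_left₀ (n := 2) (by positivity) (by positivity) (by norm_num)]
    have e : (F * a) ^ 2 = F * (F * a ^ 2) := by ring
    have e2 : (1 / (m : ℝ)) ^ 2 = 1 / (m : ℝ) ^ 2 := by rw [div_pow, one_pow]
    rw [e, e2]
    calc F * (F * a ^ 2) ≤ 1 * (F * a ^ 2) := mul_le_mul_of_nonneg_right h1 (by positivity)
      _ = F * a ^ 2 := one_mul _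
      _ ≤ 1 / (m : ℝ) ^ 2 := h2
  have h4 : F * (2 * (a * b)) ≤ F * (2 * (a * (a + th))) := by
    apply mul_le_mul_of_nonneg_left _ h0
    have : a * b ≤ a * (a + th) := mul_le_mul_of_nonneg_left hba ha
    linarith
  have h5 : F * a * th ≤ 1 / m * th := mul_le_mul_of_nonneg_right h3 hth
  have h6 : F * (2 * (a * (a + th))) = 2 * (F * a ^ 2) + 2 * (F * a * th) := by ring
  have h7 : 2 * (1 / (m : ℝ) ^ 2 + th / m) = 2 * (1 / (m : ℝ) ^ 2) + 2 * (1 / m * th) := by ring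
  rw [h7]
  linarith

theorem PLY (h1 : FEJ_stmt) : PLY_stmt := by
  have hM : MKV_stmt := Pool.Agent.RP.MKV
  refine ⟨8, by norm_num, fun θ₀ m hθ0 hθ1 hm => ?_⟩
  obtain ⟨Fm, hF01, hF0, hFs, hFp⟩ := h1 m hm
  obtain ⟨p₀, hdeg, hp₀⟩ := hFp θ₀
  have hm0 : (0 : ℝ) < m := by exact_mod_cast hm
  set s : ℝ := 1 + Fm (2 * θ₀) with hs
  have hs1 : 1 ≤ s := by
    have := (hF01 (2 * θ₀)).1
    linarith
  have hs0 : 0 < s := by linarith
  have hc : p₀.eval (Real.cos θ₀) = s := by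
    rw [hp₀ θ₀, hs]
    have e1 : θ₀ - θ₀ = 0 := sub_self _
    have e2 : θ₀ + θ₀ = 2 * θ₀ := by ring
    rw [e1, e2, hF0]
  set p : ℝ[X] := C (1 / s) * p₀ with hp
  have hpe : ∀ x, p.eval x = p₀.eval x / s := by
    intro x
    rw [hp, eval_mul, eval_C]
    ring
  have hpdeg : p.natDegree ≤ m - 1 := (natDegree_C_mul_le _ _).trans hdeg
  have hpc : p.eval (Real.cos θ₀) = 1 := by
    rw [hpe, hc]
    exact div_self hs0.ne'
  have hroot : (p - 1).IsRoot (Real.cos θ₀) := by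
    rw [IsRoot.def, eval_sub, hpc, eval_one, sub_self]
  obtain ⟨q, hq⟩ := dvd_iff_isRoot.2 hroot
  have hpq : p = 1 + (X - Polynomial.C (Real.cos θ₀)) * q := by
    rw [← hq]
    ring
  have hqdeg : q.natDegree ≤ m := by
    by_cases hq0 : q = 0
    · rw [hq0]
      simp
    · have h2 := (monic_X_sub_C (Real.cos θ₀)).natDegree_mul' hq0
      rw [← hq, natDegree_X_sub_C] at h2
      have h3 : (p - 1).natDegree ≤ m - 1 := by
        refine (natDegree_sub_le _ _).trans ?_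
        rw [natDegree_one]
        exact max_le hpdeg (by omega)
      omega
  -- values
  have harc : ∀ x : ℝ, |x| ≤ 1 → Real.cos (Real.arccos x) = x := by
    intro x hx
    rw [abs_le] at hx
    exact Real.cos_arccos hx.1 hx.2
  have hval : ∀ x : ℝ, |x| ≤ 1 → p.eval x = (Fm (Real.arccos x - θ₀) + Fm (Real.arccos x + θ₀)) / s := by
    intro x hx
    rw [hpe, ← hp₀, harc x hx]
  have hpb : ∀ x : ℝ, |x| ≤ 1 → |p.eval x| ≤ 2 := by
    intro x hx
    rw [hval x hx]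
    have a1 := hF01 (Real.arccos x - θ₀)
    have a2 := hF01 (Real.arccos x + θ₀)
    rw [abs_of_nonneg (div_nonneg (by linarith) hs0.le), div_le_iff₀ hs0]
    nlinarith
  have hder : ∀ x : ℝ, |x| ≤ 1 → |p.derivative.eval x| ≤ 8 * (m : ℝ) ^ 2 := by
    intro x hx
    have h2 := PLY_mkv hM p m 2 (hpdeg.trans (by omega)) hpb x hx
    linarith
  have hqe : ∀ x : ℝ, p.eval x = 1 + (x - Real.cos θ₀) * q.eval x := by
    intro x
    have := congrArg (fun r : ℝ[X] => r.eval x) hpq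
    simpa using this
  refine ⟨p, q, hpdeg.trans (by omega), hqdeg, hpq, fun x hx => ⟨(hpb x hx).trans (by norm_num), ?_, ?_⟩⟩
  · by_cases hxc : x = Real.cos θ₀
    · have h2 : p.derivative.eval x = q.eval x := by
        have h3 := congrArg (fun r : ℝ[X] => r.derivative.eval x) hpq
        rw [hxc] at h3 ⊢
        simpa using h3
      rw [← h2]
      exact hder x hx
    · have hcm : |Real.cos θ₀| ≤ 1 := Real.abs_cos_le_one θ₀
      have h2 : ‖p.eval x - p.eval (Real.cos θ₀)‖ ≤ 8 * (m : ℝ) ^ 2 * ‖x - Real.cos θ₀‖ := by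
        refine Convex.norm_image_sub_le_of_norm_deriv_le (f := fun y => p.eval y) (s := Set.Icc (-1 : ℝ) 1)
          (fun y _ => p.differentiable y) (fun y hy => ?_) (convex_Icc _ _) (abs_le.1 hcm) (abs_le.1 hx)
        rw [Polynomial.deriv]
        exact hder y (abs_le.2 hy)
      rw [hpc, Real.norm_eq_abs, Real.norm_eq_abs] at h2
      have h3 : p.eval x - 1 = (x - Real.cos θ₀) * q.eval x := by
        rw [hqe x]
        ring
      rw [h3, abs_mul] at h2
      have h4 : 0 < |x - Real.cos θ₀| := abs_pos.2 (sub_ne_zero.2 hxc)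
      have h5 : |x - Real.cos θ₀| * |q.eval x| ≤ |x - Real.cos θ₀| * (8 * (m : ℝ) ^ 2) := by linarith
      exact le_of_mul_le_mul_left h5 h4
  · set θ := Real.arccos x with hθ
    have hxθ : Real.cos θ = x := harc x hx
    have e1 : x - Real.cos θ₀ = -2 * Real.sin ((θ + θ₀) / 2) * Real.sin ((θ - θ₀) / 2) := by
      rw [← hxθ, Real.cos_sub_cos]
    set a : ℝ := |Real.sin ((θ - θ₀) / 2)| with ha
    set b : ℝ := |Real.sin ((θ + θ₀) / 2)| with hb
    have e2 : |x - Real.cos θ₀| = 2 * (a * b) := by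
      rw [e1, abs_mul, abs_mul, abs_neg, abs_two, ha, hb]
      ring
    have hlip : |Real.sin ((θ + θ₀) / 2) - Real.sin ((θ - θ₀) / 2)| ≤ θ₀ := by
      have h2 := Real.abs_sin_sub_sin_le ((θ + θ₀) / 2) ((θ - θ₀) / 2)
      have e3 : (θ + θ₀) / 2 - (θ - θ₀) / 2 = θ₀ := by ring
      rw [e3, abs_of_nonneg hθ0] at h2
      exact h2
    have hab1 : b ≤ a + θ₀ := by
      have h2 := abs_sub_abs_le_abs_sub (Real.sin ((θ + θ₀) / 2)) (Real.sin ((θ - θ₀) / 2))
      linarith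
    have hab2 : a ≤ b + θ₀ := by
      have h2 := abs_sub_abs_le_abs_sub (Real.sin ((θ - θ₀) / 2)) (Real.sin ((θ + θ₀) / 2))
      rw [abs_sub_comm] at h2
      linarith
    have hFa : Fm (θ - θ₀) * a ^ 2 * (m : ℝ) ^ 2 ≤ 1 := by
      rw [ha, sq_abs, hFs]
      have := Real.sin_sq_add_cos_sq (m * (θ - θ₀) / 2)
      nlinarith [sq_nonneg (Real.cos (m * (θ - θ₀) / 2))]
    have hFb : Fm (θ + θ₀) * b ^ 2 * (m : ℝ) ^ 2 ≤ 1 := by
      rw [hb, sq_abs, hFs]
      have := Real.sin_sq_add_cos_sq (m * (θ + θ₀) / 2)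
      nlinarith [sq_nonneg (Real.cos (m * (θ + θ₀) / 2))]
    have a1 := hF01 (θ - θ₀)
    have a2 := hF01 (θ + θ₀)
    have k1 := PLY_half (Fm (θ - θ₀)) a b θ₀ m hm a1.1 a1.2 (abs_nonneg _) (abs_nonneg _) hθ0 hFa hab1
    have k2 := PLY_half (Fm (θ + θ₀)) b a θ₀ m hm a2.1 a2.2 (abs_nonneg _) (abs_nonneg _) hθ0 hFb hab2
    rw [abs_mul, e2, hval x hx, abs_of_nonneg (div_nonneg (by linarith) hs0.le), mul_div_assoc']
    rw [div_le_iff₀ hs0]
    have k3 : 0 ≤ 1 / (m : ℝ) ^ 2 + θ₀ / m := by positivity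
    have k4 : 8 * (1 / (m : ℝ) ^ 2 + θ₀ / m) ≤ 8 * (1 / (m : ℝ) ^ 2 + θ₀ / m) * s :=
      le_mul_of_one_le_right (by positivity) hs1
    have k5 : b * a = a * b := mul_comm _ _
    rw [k5] at k2
    nlinarith

end Pool.Agent.QX
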